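import Pool.Agent.Run7.h677.PS.Stm

set_option autoImplicit false

namespace Run7.h554.PS

open Finset
open Pool.Agent.Run7.h677.PS

lemma Acol_card (d k : ℕ) (hk : k ≤ d) : (Acol d k).card = d + 1 - k := by
  have h : Acol d k = Finset.Iic (⟨d - k, by omega⟩ : Fin (d + 1)) := by
    ext i
    simp only [Acol, mem_filter, mem_univ, true_and, mem_Iic, Fin.le_def]
    omega
  rw [h, Fin.card_Iic]
  simp only
  omega

lemma Acol_insert (d k : ℕ) (hk : k ≤ d) :
    Acol d k = insert (⟨d - k, by omega⟩ : Fin (d + 1)) (Acol d (k + 1)) := by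
  ext i
  simp only [Acol, mem_filter, mem_univ, true_and, mem_insert, Fin.ext_iff]
  omega

lemma Acol_notMem (d k : ℕ) (hk : k ≤ d) :
    (⟨d - k, by omega⟩ : Fin (d + 1)) ∉ Acol d (k + 1) := by
  simp only [Acol, mem_filter, mem_univ, true_and]
  omega

lemma faces_erase {V : Type} [DecidableEq V] {T : Finset (Finset V)} {σ : Finset V}
    (h : σ ∈ Faces T) (v : V) : σ.erase v ∈ Faces T := by
  obtain ⟨s, hs, hσ⟩ := h
  exact ⟨s, hs, (erase_subset _ _).trans hσ⟩

lemma ncard_sum_le {V : Type} [DecidableEq V] {d n : ℕ} (S : Finset V) (φ : V → Tup d n → ZMod 2) :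
    {f : Tup d n | ∑ v ∈ S, φ v f ≠ 0}.ncard ≤ ∑ v ∈ S, {f : Tup d n | φ v f ≠ 0}.ncard := by
  induction S using Finset.induction_on with
  | empty => simp
  | insert a s ha ih =>
    rw [sum_insert ha]
    calc {f : Tup d n | ∑ v ∈ insert a s, φ v f ≠ 0}.ncard
        ≤ ({f : Tup d n | φ a f ≠ 0} ∪ {f : Tup d n | ∑ v ∈ s, φ v f ≠ 0}).ncard := by
          apply Set.ncard_le_ncard _ (Set.toFinite _)
          intro f hf
          simp only [Set.mem_union]
          by_contra hcon
          push Not at hcon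
          obtain ⟨h1, h2⟩ := hcon
          apply hf
          rw [sum_insert ha]
          have h1' : φ a f = 0 := by
            by_contra h
            exact h1 h
          have h2' : ∑ v ∈ s, φ v f = 0 := by
            by_contra h
            exact h2 h
          rw [h1', h2', add_zero]
      _ ≤ _ := Set.ncard_union_le _ _
      _ ≤ _ := Nat.add_le_add_left ih _

lemma ncard_add_le {d n : ℕ} (φ ψ : Tup d n → ZMod 2) :
    {f : Tup d n | φ f + ψ f ≠ 0}.ncard ≤
      {f : Tup d n | φ f ≠ 0}.ncard + {f : Tup d n | ψ f ≠ 0}.ncard := by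
  refine le_trans (Set.ncard_le_ncard ?_ (Set.toFinite _)) (Set.ncard_union_le _ _)
  intro f hf
  by_contra hcon
  simp only [Set.mem_union, not_or] at hcon
  obtain ⟨h1, h2⟩ := hcon
  have h1' : φ f = 0 := by
    by_contra h
    exact h1 h
  have h2' : ψ f = 0 := by
    by_contra h
    exact h2 h
  exact hf (by rw [h1', h2', add_zero])

/-- the double sum vanishes -/
lemma double_zero {V : Type} [DecidableEq V] (σ : Finset V) (G : Finset V → ZMod 2) :
    ∑ v ∈ σ, ∑ u ∈ σ.erase v, G ((σ.erase v).erase u) = 0 := by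
  rw [sum_sigma']
  apply sum_involution (fun (x : (_ : V) × V) _ => (⟨x.2, x.1⟩ : (_ : V) × V))
  · rintro ⟨v, u⟩ _
    simp only
    rw [erase_right_comm]
    exact CharTwo.add_self_eq_zero _
  · rintro ⟨v, u⟩ h _ heq
    simp only [mem_sigma, mem_erase] at h
    simp only [Sigma.mk.injEq] at heq
    exact h.2.1 heq.1
  · rintro ⟨v, u⟩ h
    simp only [mem_sigma, mem_erase] at h ⊢
    exact ⟨h.2.2, fun e => h.2.1 e.symm, h.1⟩
  · rintro ⟨v, u⟩ _
    rfl

lemma powerset_zero {ι : Type} [DecidableEq ι] (A : Finset ι) (i : ι) (hi : i ∈ A)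
    (F : Finset ι → ZMod 2) (hF : ∀ t, i ∉ t → F (insert i t) = F t) :
    ∑ B ∈ A.powerset, F B = 0 := by
  rw [← insert_erase hi, sum_powerset_insert (notMem_erase _ _), ← sum_add_distrib]
  apply sum_eq_zero
  intro t ht
  have hit : i ∉ t := fun h => notMem_erase i A (mem_powerset.1 ht h)
  rw [hF t hit]
  exact CharTwo.add_self_eq_zero _

theorem t_STEP : S_AVG → S_STEP := by
  intro hA V _ d n T I Far b η hC k hk g hL
  have hkd : k ≤ d := by omega
  set a : Fin (d + 1) := ⟨d - k, by omega⟩ with ha
  set A' := Acol d (k + 1) with hA'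
  have hAk : Acol d k = insert a A' := Acol_insert d k hkd
  have haA : a ∉ A' := Acol_notMem d k hkd
  have hcard : A'.card = d - k := by
    rw [hA', Acol_card d (k + 1) hk]
    omega
  have hcardk : (Acol d k).card = d + 1 - k := Acol_card d k hkd
  set c := Cf k I g with hc
  choose w hw using fun τ : Finset V => hA d n (c τ) a hC.hn
  set g' : Finset V → Tup d n → ZMod 2 :=
    fun τ f => if τ.card = k + 1 then c τ (Function.update f a (w τ)) else 0 with hg'
  have hg'1 : ∀ τ : Finset V, τ.card = k + 1 → ∀ f, g' τ f = c τ (Function.update f a (w τ)) := by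
    intro τ hτ f
    simp only [hg', hτ, if_true]
  have hcd : ∀ σ : Finset V, σ.card = k + 1 + 1 → ∀ v ∈ σ, (σ.erase v).card = k + 1 := by
    intro σ hσ v hv
    rw [card_erase_of_mem hv, hσ]
    rfl
  refine ⟨g', ?_, ?_, ?_, ?_⟩
  · -- dep
    intro σ hσ hσc f f' hff
    unfold Cf
    congr 1
    · exact hC.dep _ _ _ _ hff
    · apply sum_congr rfl
      intro v hv
      rw [hg'1 _ (hcd σ hσc v hv), hg'1 _ (hcd σ hσc v hv)]
      apply hL.dep _ (faces_erase hσ v) (hcd σ hσc v hv)
      intro i hi
      by_cases hia : i = a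
      · rw [hia]; simp
      · rw [Function.update_of_ne hia, Function.update_of_ne hia]
        apply hff
        rw [hAk, mem_insert] at hi
        exact hi.resolve_left hia
  · -- cnt
    intro σ hσ hσc
    have h1 : {f : Tup d n | Cf (k + 1) I g' σ f ≠ 0}.ncard ≤
        {f : Tup d n | I σ A' f ≠ 0}.ncard + ∑ v ∈ σ, {f : Tup d n | g' (σ.erase v) f ≠ 0}.ncard := by
      refine le_trans (ncard_add_le (fun f => I σ A' f) (fun f => ∑ v ∈ σ, g' (σ.erase v) f)) ?_
      exact Nat.add_le_add_left (ncard_sum_le σ (fun v f => g' (σ.erase v) f)) _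
    have h2 : (({f : Tup d n | I σ A' f ≠ 0}.ncard : ℕ) : ℝ) ≤ η * (n : ℝ) ^ (d + 1) := by
      apply hC.cnt σ hσ (by omega) A'
      rw [hσc, hcard]
      omega
    have h3 : ∀ v ∈ σ, (({f : Tup d n | g' (σ.erase v) f ≠ 0}.ncard : ℕ) : ℝ) ≤
        ((k + 1).factorial : ℝ) * (b + k * η) * (n : ℝ) ^ (d + 1) := by
      intro v hv
      refine le_trans ?_ (hL.cnt _ (faces_erase hσ v) (hcd σ hσc v hv))
      have h4 : {f : Tup d n | g' (σ.erase v) f ≠ 0} =
          {f : Tup d n | c (σ.erase v) (Function.update f a (w (σ.erase v))) ≠ 0} := by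
        ext f
        simp only [Set.mem_ofPred_eq]
        rw [hg'1 _ (hcd σ hσc v hv)]
      rw [h4]
      exact_mod_cast hw (σ.erase v)
    have h5 : (∑ v ∈ σ, (({f : Tup d n | g' (σ.erase v) f ≠ 0}.ncard : ℕ) : ℝ)) ≤
        ((k : ℝ) + 2) * (((k + 1).factorial : ℝ) * (b + k * η) * (n : ℝ) ^ (d + 1)) := by
      refine le_trans (sum_le_sum h3) ?_
      rw [sum_const, hσc, nsmul_eq_mul]
      push_cast
      apply le_of_eq
      ring
    have h6 : (({f : Tup d n | Cf (k + 1) I g' σ f ≠ 0}.ncard : ℕ) : ℝ) ≤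
        (({f : Tup d n | I σ A' f ≠ 0}.ncard : ℕ) : ℝ) +
          ∑ v ∈ σ, (({f : Tup d n | g' (σ.erase v) f ≠ 0}.ncard : ℕ) : ℝ) := by
      exact_mod_cast h1
    have h7 : (((k + 1 + 1).factorial : ℕ) : ℝ) = ((k : ℝ) + 2) * ((k + 1).factorial : ℝ) := by
      rw [Nat.factorial_succ (k + 1)]
      push_cast
      ring
    have h8 : (1 : ℝ) ≤ (((k + 1 + 1).factorial : ℕ) : ℝ) := by
      exact_mod_cast Nat.succ_le_of_lt (Nat.factorial_pos _)
    have hη := hC.hη
    have hn0 : (0 : ℝ) ≤ (n : ℝ) ^ (d + 1) := by positivity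
    have h9 : 0 ≤ ((((k + 1 + 1).factorial : ℕ) : ℝ) - 1) * (η * (n : ℝ) ^ (d + 1)) :=
      mul_nonneg (by linarith) (mul_nonneg hη hn0)
    rw [h7] at h9 ⊢
    push_cast
    nlinarith [h2, h5, h6, h9]
  · -- closed
    intro σ hσ hσc f f'
    set x : Fin n := f a with hx
    have hclaim1 : ∀ τ ∈ Faces T, τ.card = k + 1 →
        ∑ B ∈ A'.powerset, g' τ (mix f f' B) =
          ∑ B ∈ A'.powerset, c τ (Function.update (mix f f' B) a x) := by
      intro τ hτ hτc
      have h1 := hL.closed τ hτ hτc (Function.update f a x) (Function.update f' a (w τ))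
      rw [hAk, sum_powerset_insert haA] at h1
      have e1 : ∀ B ∈ A'.powerset, mix (Function.update f a x) (Function.update f' a (w τ)) B =
          Function.update (mix f f' B) a x := by
        intro B hB
        have haB : a ∉ B := fun h => haA (mem_powerset.1 hB h)
        funext i
        by_cases hia : i = a
        · rw [hia]
          simp [mix, haB]
        · simp [mix, Function.update_of_ne hia]
      have e2 : ∀ B ∈ A'.powerset, mix (Function.update f a x) (Function.update f' a (w τ))
          (insert a B) = Function.update (mix f f' B) a (w τ) := by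
        intro B hB
        funext i
        by_cases hia : i = a
        · rw [hia]
          simp [mix]
        · simp [mix, Function.update_of_ne hia, hia]
      have s1 : ∑ t ∈ A'.powerset, Cf k I g τ
          (mix (Function.update f a x) (Function.update f' a (w τ)) t) =
          ∑ B ∈ A'.powerset, c τ (Function.update (mix f f' B) a x) := by
        apply sum_congr rfl
        intro B hB
        rw [e1 B hB]
      have s2 : ∑ t ∈ A'.powerset, Cf k I g τ
          (mix (Function.update f a x) (Function.update f' a (w τ)) (insert a t)) =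
          ∑ B ∈ A'.powerset, g' τ (mix f f' B) := by
        apply sum_congr rfl
        intro B hB
        rw [e2 B hB, hg'1 τ hτc]
      rw [s1, s2] at h1
      have := eq_neg_of_add_eq_zero_right h1
      rw [this, CharTwo.neg_eq]
    have hclaim2 : ∀ h : Tup d n, ∑ v ∈ σ, c (σ.erase v) h =
        I σ A' h + ∑ i ∈ A', I σ ((Acol d k).erase i) h := by
      intro h
      have h1 : ∑ v ∈ σ, c (σ.erase v) h = ∑ v ∈ σ, I (σ.erase v) (Acol d k) h := by
        have : ∀ v ∈ σ, c (σ.erase v) h = I (σ.erase v) (Acol d k) h +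
            ∑ u ∈ σ.erase v, g ((σ.erase v).erase u) h := fun v _ => rfl
        rw [sum_congr rfl this, sum_add_distrib, double_zero σ (fun τ => g τ h), add_zero]
      rw [h1, hC.par σ hσ (Acol d k) h (by rw [hσc, hcardk]; omega)]
      have h2 : (Acol d k).erase a = A' := by
        rw [hAk, erase_insert haA]
      conv_lhs => rw [hAk]
      rw [sum_insert haA, ← hAk, h2]
    have hclaim3 : ∑ B ∈ A'.powerset, ∑ v ∈ σ, g' (σ.erase v) (mix f f' B) =
        ∑ B ∈ A'.powerset, I σ A' (mix f f' B) := by
      rw [sum_comm]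
      have h1 : ∀ v ∈ σ, ∑ B ∈ A'.powerset, g' (σ.erase v) (mix f f' B) =
          ∑ B ∈ A'.powerset, c (σ.erase v) (Function.update (mix f f' B) a x) := fun v hv =>
        hclaim1 _ (faces_erase hσ v) (hcd σ hσc v hv)
      rw [sum_congr rfl h1, sum_comm]
      simp only [hclaim2]
      rw [sum_add_distrib]
      have h2 : ∑ B ∈ A'.powerset, ∑ i ∈ A',
          I σ ((Acol d k).erase i) (Function.update (mix f f' B) a x) = 0 := by
        rw [sum_comm]
        apply sum_eq_zero
        intro i hi
        apply powerset_zero A' i hi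
          (fun B => I σ ((Acol d k).erase i) (Function.update (mix f f' B) a x))
        intro t hit
        apply hC.dep
        intro j hj
        have hji : j ≠ i := (mem_erase.1 hj).1
        by_cases hja : j = a
        · rw [hja]; simp
        · rw [Function.update_of_ne hja, Function.update_of_ne hja]
          simp [mix, hji]
      rw [h2, add_zero]
      apply sum_congr rfl
      intro B _
      apply hC.dep
      intro i hi
      have hia : i ≠ a := fun e => haA (e ▸ hi)
      rw [Function.update_of_ne hia]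
    have : ∀ B ∈ A'.powerset, Cf (k + 1) I g' σ (mix f f' B) =
        I σ A' (mix f f' B) + ∑ v ∈ σ, g' (σ.erase v) (mix f f' B) := fun B _ => rfl
    rw [sum_congr rfl this, sum_add_distrib, hclaim3]
    exact CharTwo.add_self_eq_zero _
  · -- far
    intro τ hτ f
    simp only [hg']
    split_ifs with h
    · have : c τ (Function.update f a (w τ)) = I τ (Acol d k) (Function.update f a (w τ)) +
          ∑ v ∈ τ, g (τ.erase v) (Function.update f a (w τ)) := rfl
      rw [this, hC.far τ hτ, zero_add]
      apply sum_eq_zero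
      intro v _
      exact hL.far _ (hC.farsub _ _ hτ (erase_subset _ _)) _
    · rfl

end Run7.h554.PS
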